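import Pool.Agent.V8H13.BP.Main

/-!
# The smallest graceful tree containing a given tree: trees with a long bare path

A bare path of a tree `T` is a path all of whose inner vertices have degree two in `T`.  Let `T` be a tree
with `L` leaves and a bare path with `n` edges, and let `t` be the number of the other edges of `T`.  If
`n ≥ 14 · 13^L · (t + 4)`, then `T` has an `α`-labelling; in particular `T` is graceful and
`γ(T) = |E(T)|`.  So if any edge of any tree is replaced by a sufficiently long path, one gets a graceful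
tree, and for a bounded number of leaves it is enough that one bare path is longer than a constant times the
number of the other edges.
-/

set_option autoImplicit false

namespace Pool.Agent.Results.MP_128071_co.BarePath

/-- A graph with `m` edges is graceful if there is an injective map `f` of the vertices to
`{0, 1, …, m}` such that the edge labels `|f u - f v|` are exactly `1, …, m`. -/
def Graceful {V : Type} (T : SimpleGraph V) : Prop :=
  ∃ f : V → ℕ, Function.Injective f ∧ (∀ v, f v ≤ T.edgeSet.ncard) ∧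
    {d : ℕ | ∃ u v : V, T.Adj u v ∧ d = Int.natAbs ((f u : ℤ) - (f v : ℤ))} =
      Set.Icc 1 T.edgeSet.ncard

/-- An `α`-labelling: a graceful labelling `f` and a number `p` such that every edge joins a vertex with a
label `< p` and a vertex with a label `≥ p`. -/
def AlphaLabelled {V : Type} (T : SimpleGraph V) : Prop :=
  ∃ (f : V → ℕ) (p : ℕ), Function.Injective f ∧ (∀ v, f v ≤ T.edgeSet.ncard) ∧
    {d : ℕ | ∃ u v : V, T.Adj u v ∧ d = Int.natAbs ((f u : ℤ) - (f v : ℤ))} =
      Set.Icc 1 T.edgeSet.ncard ∧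
    ∀ u v : V, T.Adj u v → ((f u < p ∧ p ≤ f v) ∨ (f v < p ∧ p ≤ f u))

/-- The numbers of edges of the finite graceful trees which have a subgraph isomorphic to `T`. -/
def gracefulSizes {V : Type} (T : SimpleGraph V) : Set ℕ :=
  {k | ∃ (W : Type) (_ : Fintype W) (T' : SimpleGraph W),
    T'.IsTree ∧ Graceful T' ∧ T.IsContained T' ∧ T'.edgeSet.ncard = k}

/-- `γ(T)`: the least number of edges of a graceful tree which has a subgraph isomorphic to `T`. -/
noncomputable def gamma {V : Type} (T : SimpleGraph V) : ℕ := sInf (gracefulSizes T)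

/-- `w 0, w 1, …, w n` is a bare path of `T`: a path whose inner vertices have degree two in `T`. -/
def BarePath {V : Type} (T : SimpleGraph V) (w : ℕ → V) (n : ℕ) : Prop :=
  (∀ i < n, T.Adj (w i) (w (i + 1))) ∧ (∀ i ≤ n, ∀ j ≤ n, w i = w j → i = j) ∧
    ∀ i, 0 < i → i < n → (T.neighborSet (w i)).ncard = 2

theorem le_of_mem {V : Type} {T : SimpleGraph V} {k : ℕ}
    (hk : k ∈ gracefulSizes T) : T.edgeSet.ncard ≤ k := by
  classical
  obtain ⟨W, _, T', _, _, ⟨φ⟩, rfl⟩ := hk
  have hinj : Function.Injective φ := φ.injective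
  have h1 : Sym2.map φ '' T.edgeSet ⊆ T'.edgeSet := by
    rintro _ ⟨e, he, rfl⟩
    induction e using Sym2.ind with
    | _ x y =>
      rw [Sym2.map_mk, SimpleGraph.mem_edgeSet]
      exact φ.toHom.map_adj ((SimpleGraph.mem_edgeSet T).1 he)
  calc T.edgeSet.ncard = (Sym2.map φ '' T.edgeSet).ncard :=
        (Set.ncard_image_of_injective _ (Sym2.map.injective hinj)).symm
    _ ≤ T'.edgeSet.ncard := Set.ncard_le_ncard h1 (Set.toFinite _)

/-- Let `T` be a finite tree with `L` leaves and `n + t` edges which has a bare path with `n` edges.  If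
`14 · 13^L · (t + 4) ≤ n`, then `T` has an `α`-labelling, so `T` is graceful and `γ(T) = |E(T)|`: `T` is a
smallest graceful tree containing `T`. -/
theorem result (V : Type) [Fintype V] (T : SimpleGraph V) (hT : T.IsTree) (n t : ℕ) (w : ℕ → V)
    (hw : BarePath T w n) (hm : T.edgeSet.ncard = n + t)
    (hn : 14 * 13 ^ {x : V | (T.neighborSet x).ncard = 1}.ncard * (t + 4) ≤ n) :
    AlphaLabelled T ∧ Graceful T ∧ T.edgeSet.ncard ∈ gracefulSizes T ∧ gamma T = T.edgeSet.ncard := by
  classical
  obtain ⟨h1, h2, h3⟩ := hw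
  have hn1 : 1 ≤ n := by
    refine le_trans ?_ hn
    exact Nat.mul_pos (Nat.mul_pos (by omega) (Nat.pow_pos (by omega))) (by omega)
  obtain ⟨F, P, Q, hF⟩ := Pool.Agent.V8H13.BP.main T hT n t w hn1 h1 h2 h3 hm hn
  obtain ⟨f, p, g1, g2, g3, g4⟩ := Pool.Agent.V8H13.BP.alpha_of_St T hT hF
  have hg : Graceful T := ⟨f, g1, g2, g3⟩
  have hs : T.edgeSet.ncard ∈ gracefulSizes T :=
    ⟨V, inferInstance, T, hT, hg, SimpleGraph.IsContained.refl T, rfl⟩
  exact ⟨⟨f, p, g1, g2, g3, g4⟩, hg, hs, le_antisymm (Nat.sInf_le hs) (le_of_mem (Nat.sInf_mem ⟨_, hs⟩))⟩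

end Pool.Agent.Results.MP_128071_co.BarePath
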