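import Pool.Agent.V8H14.GT.AddL

/-!
# The smallest graceful tree containing a given tree: trees whose non-leaves have enough leaves

Let `T` be a finite tree and `v` a vertex. A non-leaf `w ≠ v` is called rich if it has at least three
more leaf neighbours than non-leaf neighbours (if its distance from `v` is odd), or at least as many
leaf neighbours as non-leaf neighbours minus one (if this distance is even).

1. If all non-leaves `w ≠ v` are rich and `v` has at least `216 (k + 1)` leaf neighbours, where `k` is
   the number of the other non-leaves, then `T` is graceful. The numbers of the leaves at the other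
   non-leaves and the shape of the tree of the non-leaves are arbitrary. More generally it is enough
   that `v` has at least `216 (10^18 s + 1) (k + 1)` leaf neighbours, where `s` is the number of the
   vertices `x` such that a non-leaf on the path from `v` to `x` is not rich.
2. So `T` is graceful if it has at least `217 k^2` edges and each of its `k` non-leaves has at least
   three more leaf neighbours than non-leaf neighbours.
3. For every tree, adding leaves at non-leaves such that the conditions are satisfied gives a graceful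
   tree, and `γ(T)` is at most the number of edges plus the number of the missing leaves.
-/

set_option autoImplicit false

namespace Pool.Agent.Results.MP_128071_co.LeafyNonLeaves

open Pool.Agent.W322.GT (addLeaves addLeaves_contains)

/-- A graph with `m` edges is graceful if there is an injective map `f` of the vertices to
`{0, 1, …, m}` such that the edge labels `|f u - f v|` are exactly `1, …, m`. -/
def Graceful {V : Type} (T : SimpleGraph V) : Prop :=
  ∃ f : V → ℕ, Function.Injective f ∧ (∀ v, f v ≤ T.edgeSet.ncard) ∧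
    {d : ℕ | ∃ u v : V, T.Adj u v ∧ d = Int.natAbs ((f u : ℤ) - (f v : ℤ))} =
      Set.Icc 1 T.edgeSet.ncard

/-- The numbers of edges of the finite graceful trees which have a subgraph isomorphic to `T`. -/
def gracefulSizes {V : Type} (T : SimpleGraph V) : Set ℕ :=
  {k | ∃ (W : Type) (_ : Fintype W) (T' : SimpleGraph W),
    T'.IsTree ∧ Graceful T' ∧ T.IsContained T' ∧ T'.edgeSet.ncard = k}

/-- `γ(T)`: the least number of edges of a graceful tree which has a subgraph isomorphic to `T`. -/
noncomputable def gamma {V : Type} (T : SimpleGraph V) : ℕ := sInf (gracefulSizes T)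

/-- A vertex with at least two neighbours. -/
def NonLeaf {V : Type} (T : SimpleGraph V) (x : V) : Prop := 2 ≤ (T.neighborSet x).ncard

/-- The number of the neighbours of `x` which are leaves. -/
noncomputable def leafNbrs {V : Type} (T : SimpleGraph V) (x : V) : ℕ :=
  {y : V | T.Adj x y ∧ (T.neighborSet y).ncard = 1}.ncard

/-- The number of the neighbours of `x` which are not leaves. -/
noncomputable def nonLeafNbrs {V : Type} (T : SimpleGraph V) (x : V) : ℕ :=
  {y : V | T.Adj x y ∧ 2 ≤ (T.neighborSet y).ncard}.ncard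

/-- `w` has enough leaf neighbours, seen from `v`. -/
def Rich {V : Type} (T : SimpleGraph V) (v w : V) : Prop :=
  if T.dist v w % 2 = 1 then nonLeafNbrs T w + 3 ≤ leafNbrs T w
  else nonLeafNbrs T w ≤ leafNbrs T w + 1

/-- The vertices `x` such that some non-leaf `p ≠ v` on the path from `v` to `x` (possibly `p = x`) is
not rich. -/
def Below {V : Type} (T : SimpleGraph V) (v : V) : Set V :=
  {x | ∃ p, p ≠ v ∧ NonLeaf T p ∧ ¬ Rich T v p ∧ T.dist v x = T.dist v p + T.dist p x}

/-- The number of the leaves missing at the non-leaf `w ≠ v`. -/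
noncomputable def missing {V : Type} (T : SimpleGraph V) (v w : V) : ℕ :=
  if T.dist v w % 2 = 1 then nonLeafNbrs T w + 3 - leafNbrs T w
  else nonLeafNbrs T w - (leafNbrs T w + 1)

theorem le_of_mem {V : Type} {T : SimpleGraph V} {k : ℕ}
    (hk : k ∈ gracefulSizes T) : T.edgeSet.ncard ≤ k := by
  classical
  obtain ⟨W, _, T', _, _, ⟨φ⟩, rfl⟩ := hk
  have hinj : Function.Injective φ := φ.injective
  have h1 : Sym2.map φ '' T.edgeSet ⊆ T'.edgeSet := by
    rintro _ ⟨e, he, rfl⟩
    induction e using Sym2.ind with
    | _ x y =>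
      rw [Sym2.map_mk, SimpleGraph.mem_edgeSet]
      exact φ.toHom.map_adj ((SimpleGraph.mem_edgeSet T).1 he)
  calc T.edgeSet.ncard = (Sym2.map φ '' T.edgeSet).ncard :=
        (Set.ncard_image_of_injective _ (Sym2.map.injective hinj)).symm
    _ ≤ T'.edgeSet.ncard := Set.ncard_le_ncard h1 (Set.toFinite _)

theorem gamma_eq {V : Type} [Fintype V] {T : SimpleGraph V} (hT : T.IsTree) (h : Graceful T) :
    Graceful T ∧ gamma T = T.edgeSet.ncard := by
  have h1 : T.edgeSet.ncard ∈ gracefulSizes T :=
    ⟨V, inferInstance, T, hT, h, SimpleGraph.IsContained.refl T, rfl⟩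
  exact ⟨h, le_antisymm (Nat.sInf_le h1) (le_of_mem (Nat.sInf_mem ⟨_, h1⟩))⟩

theorem graceful_conv {V : Type} [Fintype V] {T : SimpleGraph V} (h : Pool.Agent.H115R2.Graceful T) :
    Graceful T := h

/-- Some vertex of a tree with `k ≥ 1` non-leaves has at least `(|V| - k) / k` leaf neighbours. -/
theorem exists_many {V : Type} [Fintype V] {T : SimpleGraph V} (hT : T.IsTree) (k a : ℕ)
    (hk : {x : V | NonLeaf T x}.ncard = k) (hk1 : 1 ≤ k) (ha : k * a + k ≤ Fintype.card V) :
    ∃ v, NonLeaf T v ∧ a ≤ leafNbrs T v := by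
  classical
  obtain ⟨r, hr⟩ : ∃ r, NonLeaf T r := by
    by_contra hc
    push Not at hc
    have : {x : V | NonLeaf T x} = ∅ := by
      rw [Set.eq_empty_iff_forall_notMem]
      exact hc
    rw [this, Set.ncard_empty] at hk
    omega
  obtain ⟨par, hp1, hp2⟩ := Pool.Agent.H115R2.exists_parent T hT r
  obtain ⟨N, hN⟩ : ∃ N : Finset V, ∀ x, x ∈ N ↔ NonLeaf T x :=
    ⟨Finset.univ.filter (fun x => NonLeaf T x), by simp⟩
  have hNk : N.card = k := by
    rw [← hk, ← Set.ncard_coe_finset]
    congr 1
    ext x
    rw [Finset.mem_coe, hN]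
    rfl
  have hpar : ∀ x, x ≠ r → par x ∈ N := by
    intro x hx
    rw [hN]
    by_cases h : par x = r
    · rw [h]
      exact hr
    · exact (Pool.Agent.V8H14.GT.deg_iff r par hp1 hp2 hT h).2 ⟨x, hx, rfl⟩
  by_contra hc
  push Not at hc
  have h1 : (Finset.univ \ N).card ≤ ∑ v ∈ N, ((Finset.univ \ N).filter (fun x => par x = v)).card := by
    rw [← Finset.card_eq_sum_card_fiberwise (f := par)]
    intro x hx
    rw [Finset.mem_coe, Finset.mem_sdiff] at hx
    apply hpar
    rintro rfl
    exact hx.2 ((hN _).2 hr)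
  have h2 : ∀ v ∈ N, ((Finset.univ \ N).filter (fun x => par x = v)).card + 1 ≤ a := by
    intro v hv
    have h3 := hc v ((hN v).1 hv)
    refine lt_of_le_of_lt ?_ h3
    unfold leafNbrs
    rw [← Set.ncard_coe_finset]
    apply Set.ncard_le_ncard _ (Set.toFinite _)
    intro x hx
    rw [Finset.mem_coe, Finset.mem_filter, Finset.mem_sdiff] at hx
    obtain ⟨⟨_, h4⟩, h5⟩ := hx
    have h6 : x ≠ r := by
      rintro rfl
      exact h4 ((hN _).2 hr)
    have h7 := hp1 x h6
    rw [h5] at h7
    refine ⟨h7.1, ?_⟩
    apply Pool.Agent.V8H14.GT.deg_one r par hp1 hp2 hT h6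
    intro h8
    exact h4 ((hN x).2 ((Pool.Agent.V8H14.GT.deg_iff r par hp1 hp2 hT h6).2 h8))
  have h3 : ∑ v ∈ N, (((Finset.univ \ N).filter (fun x => par x = v)).card + 1) ≤ ∑ v ∈ N, a :=
    Finset.sum_le_sum h2
  rw [Finset.sum_add_distrib, Finset.sum_const, Finset.sum_const, smul_eq_mul, smul_eq_mul, hNk,
    mul_one] at h3
  have h4 : (Finset.univ \ N).card = Fintype.card V - k := by
    rw [Finset.card_sdiff_of_subset (Finset.subset_univ N), Finset.card_univ, hNk]
  omega

/-- `addLeaves T l` is the tree `T` with `l x` new vertices joined to each vertex `x`. -/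
theorem result (V : Type) [Fintype V] (T : SimpleGraph V) (hT : T.IsTree) :
    (∀ (v : V) (k s : ℕ), {x : V | x ≠ v ∧ NonLeaf T x ∧ x ∉ Below T v}.ncard = k →
      (Below T v).ncard = s → 216 * ((10 ^ 18 * s + 1) * (k + 1)) ≤ leafNbrs T v →
        Graceful T ∧ gamma T = T.edgeSet.ncard) ∧
    (∀ k : ℕ, {x : V | NonLeaf T x}.ncard = k →
      (∀ x, NonLeaf T x → nonLeafNbrs T x + 3 ≤ leafNbrs T x) → 217 * k ^ 2 ≤ T.edgeSet.ncard →
        Graceful T ∧ gamma T = T.edgeSet.ncard) ∧
    (∀ (v : V) (k : ℕ), {x : V | x ≠ v ∧ NonLeaf T x}.ncard = k → ∀ l : V → ℕ,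
      (∀ x, ¬ NonLeaf T x → l x = 0) → (∀ w, w ≠ v → NonLeaf T w → missing T v w ≤ l w) →
      216 * (k + 1) ≤ leafNbrs T v + l v →
        (addLeaves T l).IsTree ∧ Graceful (addLeaves T l) ∧
          (addLeaves T l).edgeSet.ncard = T.edgeSet.ncard + ∑ x, l x) ∧
    gamma T ∈ gracefulSizes T ∧ T.edgeSet.ncard ≤ gamma T ∧
    (∀ (v : V) (k : ℕ), NonLeaf T v → {x : V | x ≠ v ∧ NonLeaf T x}.ncard = k →
      gamma T ≤ T.edgeSet.ncard + (216 * (k + 1) - leafNbrs T v) +
        ∑ w ∈ (Set.toFinite {x : V | x ≠ v ∧ NonLeaf T x}).toFinset, missing T v w) := by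
  classical
  have main1 : ∀ (v : V) (k s : ℕ), {x : V | x ≠ v ∧ NonLeaf T x ∧ x ∉ Below T v}.ncard = k →
      (Below T v).ncard = s → 216 * ((10 ^ 18 * s + 1) * (k + 1)) ≤ leafNbrs T v →
        Graceful T ∧ gamma T = T.edgeSet.ncard := by
    intro v k s hk hs h
    subst hs
    exact gamma_eq hT (graceful_conv (Pool.Agent.V8H14.GT.rich_graceful T hT v k hk.le h))
  have main3 : ∀ (v : V) (k : ℕ), {x : V | x ≠ v ∧ NonLeaf T x}.ncard = k → ∀ l : V → ℕ,
      (∀ x, ¬ NonLeaf T x → l x = 0) → (∀ w, w ≠ v → NonLeaf T w → missing T v w ≤ l w) →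
      216 * (k + 1) ≤ leafNbrs T v + l v →
        (addLeaves T l).IsTree ∧ Graceful (addLeaves T l) ∧
          (addLeaves T l).edgeSet.ncard = T.edgeSet.ncard + ∑ x, l x := by
    intro v k hk l hl hm hs
    obtain ⟨h1, h2, h3⟩ := Pool.Agent.V8H14.GT.add_graceful hT l hl v k hk.le (by
      intro w hw hw'
      have h4 := hm w hw hw'
      unfold missing at h4
      by_cases hd : T.dist v w % 2 = 1
      · rw [if_pos hd] at h4 ⊢
        show nonLeafNbrs T w + 3 ≤ leafNbrs T w + l w
        omega
      · rw [if_neg hd] at h4 ⊢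
        show nonLeafNbrs T w ≤ leafNbrs T w + l w + 1
        omega) hs
    exact ⟨h1, h3, h2⟩
  have main4 : ∀ (v : V) (k : ℕ), NonLeaf T v → {x : V | x ≠ v ∧ NonLeaf T x}.ncard = k →
      ∃ s ∈ gracefulSizes T, s ≤ T.edgeSet.ncard + (216 * (k + 1) - leafNbrs T v) +
        ∑ w ∈ (Set.toFinite {x : V | x ≠ v ∧ NonLeaf T x}).toFinset, missing T v w := by
    intro v k hv hk
    obtain ⟨h1, h2, h3⟩ := main3 v k hk (fun x => if x = v then 216 * (k + 1) - leafNbrs T v else
        if NonLeaf T x then missing T v x else 0)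
      (by
        intro x hx
        have hxv : x ≠ v := by
          rintro rfl
          exact hx hv
        simp only [if_neg hxv, if_neg hx])
      (by
        intro w hw hw'
        simp only [if_neg hw, if_pos hw']
        exact le_refl _)
      (by
        simp only [if_true]
        omega)
    refine ⟨_, ⟨_, inferInstance, _, h1, h2, addLeaves_contains T _, rfl⟩, ?_⟩
    rw [h3, add_assoc]
    apply Nat.add_le_add_left
    rw [← Finset.add_sum_erase Finset.univ _ (Finset.mem_univ v)]
    simp only [if_true]
    apply Nat.add_le_add_left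
    have e : ∀ x ∈ Finset.univ.erase v, (if x = v then 216 * (k + 1) - leafNbrs T v else
        if NonLeaf T x then missing T v x else 0) = if NonLeaf T x then missing T v x else 0 := by
      intro x hx
      rw [if_neg (Finset.ne_of_mem_erase hx)]
    rw [Finset.sum_congr rfl e, ← Finset.sum_filter]
    apply le_of_eq
    apply Finset.sum_congr
    · ext x
      simp
    · intro x _
      rfl
  have hne : (gracefulSizes T).Nonempty := by
    by_cases hex : ∃ x, NonLeaf T x
    · obtain ⟨x, hx⟩ := hex
      obtain ⟨s, hs, _⟩ := main4 x _ hx rfl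
      exact ⟨s, hs⟩
    · push Not at hex
      have h1 : Graceful T :=
        Pool.Agent.W322.GT.graceful_small hT (fun x => by
          have := hex x
          unfold NonLeaf at this
          omega)
      exact ⟨T.edgeSet.ncard, V, inferInstance, T, hT, h1, SimpleGraph.IsContained.refl T, rfl⟩
  have hmem : gamma T ∈ gracefulSizes T := Nat.sInf_mem hne
  refine ⟨main1, ?_, main3, hmem, le_of_mem hmem, ?_⟩
  · intro k hk hx hm
    have hcard := Pool.Agent.H115R2.ncard_edge T hT
    by_cases hk0 : k = 0
    · have hex : ∀ x, ¬ NonLeaf T x := by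
        intro x hx
        have : x ∈ {x : V | NonLeaf T x} := hx
        rw [hk0, Set.ncard_eq_zero (Set.toFinite _)] at hk
        rw [hk] at this
        exact this
      exact gamma_eq hT (Pool.Agent.W322.GT.graceful_small hT (fun x => by
          have := hex x
          unfold NonLeaf at this
          omega))
    · obtain ⟨v, hv, hv'⟩ := exists_many hT k (216 * k) hk (by omega) (by
        have e : k * (216 * k) + k ≤ 217 * k ^ 2 := by nlinarith [Nat.pos_of_ne_zero hk0]
        omega)
      have hB : Below T v = ∅ := by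
        rw [Set.eq_empty_iff_forall_notMem]
        rintro x ⟨p, _, hp2, hp3, _⟩
        apply hp3
        have := hx p hp2
        unfold Rich
        split_ifs
        · exact this
        · omega
      refine main1 v (k - 1) 0 ?_ (by rw [hB, Set.ncard_empty]) ?_
      · have h1 : {x : V | x ≠ v ∧ NonLeaf T x ∧ x ∉ Below T v} = {x : V | NonLeaf T x} \ {v} := by
          rw [hB]
          ext x
          constructor
          · rintro ⟨h1, h2, _⟩
            exact ⟨h2, h1⟩
          · rintro ⟨h1, h2⟩
            exact ⟨h2, h1, id⟩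
        have h2 : v ∈ {x : V | NonLeaf T x} := hv
        rw [h1, Set.ncard_sdiff_singleton_of_mem h2, hk]
      · have : k - 1 + 1 = k := by omega
        rw [this]
        omega
  · intro v k hv hk
    obtain ⟨s, hs, hle⟩ := main4 v k hv hk
    exact (Nat.sInf_le hs).trans hle

end Pool.Agent.Results.MP_128071_co.LeafyNonLeaves
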