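import Pool.Agent.V8H14.GT3.Main

/-!
# Trees with `k` non-leaves and at least `10^40 k^2` edges are graceful

Every finite tree `T` with `k` vertices of degree at least two and at least `10^40 k^2` edges is
graceful, so `T` itself is the smallest graceful tree containing `T`. The shape of the tree of the
non-leaves and the positions of the leaves are arbitrary.

Proof. If two vertices have at least `10^20 k` leaf neighbours each, then `T` is graceful by
`Pool.Agent.V8H14.GT3.two_main`, the theorem behind our hand-in `TwoLeafyVertices`. Otherwise at most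
one vertex has so many leaf neighbours, so that all but `k + 10^20 k^2` vertices are adjacent to one of
two vertices, and the starting theorem `Pool.Agent.R738.TwoHubs.main` applies.
-/

set_option autoImplicit false

namespace Pool.Agent.Results.MP_128071_co.QuadraticBound

/-- A graph with `m` edges is graceful if there is an injective map `f` of the vertices to
`{0, 1, …, m}` such that the edge labels `|f u - f v|` are exactly `1, …, m`. -/
def Graceful {V : Type} (T : SimpleGraph V) : Prop :=
  ∃ f : V → ℕ, Function.Injective f ∧ (∀ v, f v ≤ T.edgeSet.ncard) ∧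
    {d : ℕ | ∃ u v : V, T.Adj u v ∧ d = Int.natAbs ((f u : ℤ) - (f v : ℤ))} =
      Set.Icc 1 T.edgeSet.ncard

/-- The numbers of edges of the finite graceful trees which have a subgraph isomorphic to `T`. -/
def gracefulSizes {V : Type} (T : SimpleGraph V) : Set ℕ :=
  {k | ∃ (W : Type) (_ : Fintype W) (T' : SimpleGraph W),
    T'.IsTree ∧ Graceful T' ∧ T.IsContained T' ∧ T'.edgeSet.ncard = k}

/-- `γ(T)`: the least number of edges of a graceful tree which has a subgraph isomorphic to `T`. -/
noncomputable def gamma {V : Type} (T : SimpleGraph V) : ℕ := sInf (gracefulSizes T)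

/-- A vertex with at least two neighbours. -/
def NonLeaf {V : Type} (T : SimpleGraph V) (x : V) : Prop := 2 ≤ (T.neighborSet x).ncard

theorem le_of_mem {V : Type} {T : SimpleGraph V} {k : ℕ}
    (hk : k ∈ gracefulSizes T) : T.edgeSet.ncard ≤ k := by
  classical
  obtain ⟨W, _, T', _, _, ⟨φ⟩, rfl⟩ := hk
  have hinj : Function.Injective φ := φ.injective
  have h1 : Sym2.map φ '' T.edgeSet ⊆ T'.edgeSet := by
    rintro _ ⟨e, he, rfl⟩
    induction e using Sym2.ind with
    | _ x y =>
      rw [Sym2.map_mk, SimpleGraph.mem_edgeSet]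
      exact φ.toHom.map_adj ((SimpleGraph.mem_edgeSet T).1 he)
  calc T.edgeSet.ncard = (Sym2.map φ '' T.edgeSet).ncard :=
        (Set.ncard_image_of_injective _ (Sym2.map.injective hinj)).symm
    _ ≤ T'.edgeSet.ncard := Set.ncard_le_ncard h1 (Set.toFinite _)

theorem gamma_eq {V : Type} [Fintype V] {T : SimpleGraph V} (hT : T.IsTree)
    (h : Pool.Agent.H115R2.Graceful T) :
    Graceful T ∧ T.edgeSet.ncard ∈ gracefulSizes T ∧ gamma T = T.edgeSet.ncard := by
  have h0 : Graceful T := h
  have h1 : T.edgeSet.ncard ∈ gracefulSizes T :=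
    ⟨V, inferInstance, T, hT, h0, SimpleGraph.IsContained.refl T, rfl⟩
  exact ⟨h0, h1, le_antisymm (Nat.sInf_le h1) (le_of_mem (Nat.sInf_mem ⟨_, h1⟩))⟩

theorem result (V : Type) [Fintype V] (T : SimpleGraph V) (hT : T.IsTree)
    (h : 10 ^ 40 * {x : V | NonLeaf T x}.ncard ^ 2 ≤ T.edgeSet.ncard) :
    Graceful T ∧ T.edgeSet.ncard ∈ gracefulSizes T ∧ gamma T = T.edgeSet.ncard :=
  gamma_eq hT (Pool.Agent.V8H14.GT3.main_few T hT _ rfl h)

end Pool.Agent.Results.MP_128071_co.QuadraticBound
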