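import Pool.Agent.V8H14.GT3.Main

/-!
# Trees with two vertices which have linearly many leaves are graceful

Let `T` be a finite tree with `k` non-leaves which has two vertices `v ≠ w` with at least `10^20 k` leaf
neighbours each. Then `T` is graceful, so `γ(T) = |E(T)|`. The distance of `v` and `w`, the tree of the
non-leaves and the numbers of leaves at the other vertices are arbitrary.

Proof. If `v` and `w` are adjacent, then the earlier theorem `Pool.Agent.V8H14.GT.edge_graceful`
applies. Otherwise let `q` be the neighbour of `v` on the path to `w`, and suppose that there is a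
non-leaf `a` next to `v` with a neighbour `b ≠ v, w`, where `a = q`, or `q` is next to `w` and has no
further neighbours, and where `a` has no leaves if `b` is not a leaf. There is a labelling `F` of the
non-leaves (and of `b`) with values at most `10^18 k` which is closed: `F(v) = F(w) = 0`,
`F(a) = F(b) = F(q) = s`, and apart from the edges `v q`, `v a`, `a b` the differences of the labels of
neighbours are, as a set, the labels of the vertices other than `v`, `w`, `a`, `q`. Now `v`, `w`, `a`,
`q` (if `q ≠ a`) and the other vertices `x` get the labels `0`, `2 H`, `2 H + 2 s`, `2 H - 2 s` and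
`2 F(x)`, where `2 H + 2 s` is `m` or `m - 1`. The leaves at `w` get labels in pairs `l, 2 H - l`, the
leaves at `a` in pairs `l, 2 H + 2 s - l`. Half of the leaves at the other vertices `x` get intervals
of labels which follow one another in the order of the labels `F(x)`; the differences of their labels
to `2 F(x)` form an interval, and the labels miss only `2 max F` of its elements. The other half are
placed by reflection, so that leaves at `w`, `4 max F` of them in all, correct both defects. In this
way the set of the labels of the vertices other than the leaves of `v` becomes equal to the set of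
the differences of the labels at their edges, and the leaves at `v` get the remaining labels.

If there is no such `a`, then `q` has only the neighbours `v` and `w` and the other neighbours of `v`
are leaves. If this also holds with `v` and `w` exchanged, then all vertices are next to `v` or `w`,
and the starting theorem `Pool.Agent.R738.TwoHubs.main` applies.
-/

set_option autoImplicit false

namespace Pool.Agent.Results.MP_128071_co.TwoLeafyVertices

/-- A graph with `m` edges is graceful if there is an injective map `f` of the vertices to
`{0, 1, …, m}` such that the edge labels `|f u - f v|` are exactly `1, …, m`. -/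
def Graceful {V : Type} (T : SimpleGraph V) : Prop :=
  ∃ f : V → ℕ, Function.Injective f ∧ (∀ v, f v ≤ T.edgeSet.ncard) ∧
    {d : ℕ | ∃ u v : V, T.Adj u v ∧ d = Int.natAbs ((f u : ℤ) - (f v : ℤ))} =
      Set.Icc 1 T.edgeSet.ncard

/-- The numbers of edges of the finite graceful trees which have a subgraph isomorphic to `T`. -/
def gracefulSizes {V : Type} (T : SimpleGraph V) : Set ℕ :=
  {k | ∃ (W : Type) (_ : Fintype W) (T' : SimpleGraph W),
    T'.IsTree ∧ Graceful T' ∧ T.IsContained T' ∧ T'.edgeSet.ncard = k}

/-- `γ(T)`: the least number of edges of a graceful tree which has a subgraph isomorphic to `T`. -/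
noncomputable def gamma {V : Type} (T : SimpleGraph V) : ℕ := sInf (gracefulSizes T)

/-- A vertex with at least two neighbours. -/
def NonLeaf {V : Type} (T : SimpleGraph V) (x : V) : Prop := 2 ≤ (T.neighborSet x).ncard

/-- The number of the neighbours of `x` which are leaves. -/
noncomputable def leafNbrs {V : Type} (T : SimpleGraph V) (x : V) : ℕ :=
  {y : V | T.Adj x y ∧ (T.neighborSet y).ncard = 1}.ncard

theorem le_of_mem {V : Type} {T : SimpleGraph V} {k : ℕ}
    (hk : k ∈ gracefulSizes T) : T.edgeSet.ncard ≤ k := by
  classical
  obtain ⟨W, _, T', _, _, ⟨φ⟩, rfl⟩ := hk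
  have hinj : Function.Injective φ := φ.injective
  have h1 : Sym2.map φ '' T.edgeSet ⊆ T'.edgeSet := by
    rintro _ ⟨e, he, rfl⟩
    induction e using Sym2.ind with
    | _ x y =>
      rw [Sym2.map_mk, SimpleGraph.mem_edgeSet]
      exact φ.toHom.map_adj ((SimpleGraph.mem_edgeSet T).1 he)
  calc T.edgeSet.ncard = (Sym2.map φ '' T.edgeSet).ncard :=
        (Set.ncard_image_of_injective _ (Sym2.map.injective hinj)).symm
    _ ≤ T'.edgeSet.ncard := Set.ncard_le_ncard h1 (Set.toFinite _)

theorem gamma_eq {V : Type} [Fintype V] {T : SimpleGraph V} (hT : T.IsTree)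
    (h : Pool.Agent.H115R2.Graceful T) :
    Graceful T ∧ T.edgeSet.ncard ∈ gracefulSizes T ∧ gamma T = T.edgeSet.ncard := by
  have h0 : Graceful T := h
  have h1 : T.edgeSet.ncard ∈ gracefulSizes T :=
    ⟨V, inferInstance, T, hT, h0, SimpleGraph.IsContained.refl T, rfl⟩
  exact ⟨h0, h1, le_antisymm (Nat.sInf_le h1) (le_of_mem (Nat.sInf_mem ⟨_, h1⟩))⟩

theorem result (V : Type) [Fintype V] (T : SimpleGraph V) (hT : T.IsTree) (v w : V) (hvw : v ≠ w)
    (hv : 10 ^ 20 * {x : V | NonLeaf T x}.ncard ≤ leafNbrs T v)
    (hw : 10 ^ 20 * {x : V | NonLeaf T x}.ncard ≤ leafNbrs T w) :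
    Graceful T ∧ T.edgeSet.ncard ∈ gracefulSizes T ∧ gamma T = T.edgeSet.ncard := by
  apply gamma_eq hT
  obtain ⟨k, hk⟩ : ∃ k, {x : V | NonLeaf T x}.ncard = k := ⟨_, rfl⟩
  rw [hk] at hv hw
  rcases Nat.eq_zero_or_pos k with hk0 | hk0
  · apply Pool.Agent.V8H14.GT3.main_few T hT k hk
    rw [hk0]
    norm_num
  · exact Pool.Agent.V8H14.GT3.two_main T hT v w hvw k hk.le hk0 hv hw

end Pool.Agent.Results.MP_128071_co.TwoLeafyVertices
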